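import Pool.Agent.Q51.CP.ColQ

/-!
# Large exact prime patterns in one class of a partition of the primes

Divide the primes into finitely many classes, in an arbitrary way, and let `A i x + B i` be a sequence
of distinct primitive linear forms, for instance `x + a i`. There are a class and an infinite set `I`
of indices such that, for every finite set `T` of forms, the forms in `T` whose values at `n` belong to
the class are exactly those with index in `I`, for infinitely many `n`; if the sequence is admissible,
then `I` can be taken with at least `(log X)^(1-ε)` elements below `X`, for arbitrarily large `X`.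

The quantitative infinite exact pattern theorem of the starting files
(`Pool.Agent.H361R2.Inf.seq_exact`, the case of one class) is combined with a limit along an
ultrafilter, which divides an exact pattern of primes into exact patterns of all the classes at once.
-/

set_option autoImplicit false

namespace Pool.Agent.Results.MP_e87c7d_nt.LargePatternsInAClass

/-- Let `P 0, …, P (k-1)` be sets of primes which contain all primes (a partition of the primes, for
instance). Let `f i = A i x + B i`, `i = 0, 1, 2, …`, be distinct linear forms with `A i ≥ 1` and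
`gcd (A i, B i) = 1`, and `ε > 0`. There are a class `P c` and an infinite set `I` of indices such that
for every finite set `T` of linear forms with positive first coefficient there are infinitely many `n`
such that for all `f ∈ T`: `f n` is an element of `P c` if and only if `f = f i` for some `i ∈ I`. If
for every prime `p` there is an `n` for which `p` divides no `f i n`, then moreover
`|I ∩ [0, X)| ≥ (log X)^(1-ε)` for arbitrarily large `X`. -/
theorem result (k : ℕ) (P : Fin k → Set ℕ) (hP1 : ∀ c, ∀ p ∈ P c, p.Prime)
    (hP2 : ∀ p : ℕ, p.Prime → ∃ c, p ∈ P c) (A B : ℕ → ℤ) (hA : ∀ i, 1 ≤ A i)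
    (hcop : ∀ i, IsCoprime (A i) (B i)) (hinj : Function.Injective (fun i => (A i, B i)))
    (ε : ℝ) (hε : 0 < ε) : ∃ c : Fin k, ∃ I : Set ℕ, I.Infinite ∧
      ((∀ p : ℕ, p.Prime → ∃ n : ℕ, ∀ i, ¬ (p : ℤ) ∣ A i * n + B i) →
        ∃ᶠ X : ℕ in Filter.atTop, (Real.log X) ^ (1 - ε) ≤ ((I ∩ Set.Iio X).ncard : ℝ)) ∧
      ∀ T : Finset (ℤ × ℤ), (∀ f ∈ T, 1 ≤ f.1) →
        {n : ℕ | ∀ f ∈ T, ((∃ p ∈ P c, (p : ℤ) = f.1 * n + f.2) ↔
          ∃ i ∈ I, f = (A i, B i))}.Infinite := by
  obtain ⟨c, I, h1, h2, h3⟩ := Pool.Agent.Q51.CP.Col.quant P hP1 hP2 A B hA hcop hinj ε hε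
  refine ⟨c, I, h1, h2, fun T hT => (h3 T hT).mono (fun n hn f hf => ?_)⟩
  have h4 := hn f hf
  constructor
  · rintro ⟨p, hp, hpe⟩
    have h5 : Pool.Agent.Q51.CP.Col.val f n = p := by
      unfold Pool.Agent.Q51.CP.Col.val
      omega
    obtain ⟨i, hi, hif⟩ := h4.1 (by rw [h5]; exact hp)
    exact ⟨i, hi, hif.symm⟩
  · rintro ⟨i, hi, hif⟩
    have h5 := h4.2 ⟨i, hi, hif.symm⟩
    refine ⟨_, h5, ?_⟩
    have h6 := (hP1 c _ h5).pos
    unfold Pool.Agent.Q51.CP.Col.val at h6 ⊢
    omega

end Pool.Agent.Results.MP_e87c7d_nt.LargePatternsInAClass
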