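import Pool.Agent.Q48.RD.MomK

/-!
# All moments of the number of primes and almost primes in short intervals, at integers with restricted digits

Let `g ≥ 2` be a base and `K` a large number of digits. For every `i < K` let `A i` be an arbitrary set of digits, such that the number
`|A 0| ⋯ |A (K - 1)|` of the integers `t < g ^ K` whose `i`-th digit belongs to `A i` for all `i < K` is at least `exp (- c K) g ^ K`
(`Rich`). Let `N ≤ g ^ (E K)` be arbitrary. We consider the numbers `x = N + t` with these `t`: they form a set with only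
`y ^ (1 - δ)` elements in an interval of length `y = g ^ K`, which may be an arbitrarily small power of `x`.

Let `k ≥ 1` and `T ≤ g ^ (E K)`. The conjecture of Hardy and Littlewood for the `k`-tuples `x + h_1, …, x + h_k`, on average over the
shifts `h_1, …, h_k ≤ T`, predicts that the mean value of `P (x) ^ k`, where `P (x)` is the number of the primes in `(x, x + T]`, has the
order of magnitude of `(T / K) ^ k` for `T ≥ K` and of `T / K` for `T ≤ K`. We prove

(1) the upper bound of this order for the primes, for `x` in all these sets;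

(2) the exact order of magnitude for the almost primes with at most `r` prime factors, all larger than `g ^ (K / r)`.

There is no condition on `N` and on the sets of digits, and the constants do not depend on them.
-/

set_option autoImplicit false

namespace Pool.Agent.Results.MP_e87c7d_nt.MomentsInShortIntervals

open Filter Finset
open Pool.Agent.Q315.RD Pool.Agent.Q48.RD

/-- The number of the primes `p` with `x < p ≤ x + T`. -/
def primesIn (x T : ℕ) : ℕ := ((Ioc x (x + T)).filter Nat.Prime).card

open Classical in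
/-- The number of the `n` with `x < n ≤ x + T` which have at most `r` prime factors, all larger than `y ^ (1 / r)`. -/
noncomputable def almostPrimesIn (y r x T : ℕ) : ℕ := ((Ioc x (x + T)).filter fun n => AlmostPrime y r n).card

open Classical in
/-- The integers `t < g ^ K` whose `i`-th digit belongs to `A i` for all `i < K`. -/
noncomputable def digitSet (g K : ℕ) (A : ℕ → Finset ℕ) : Finset ℕ := (range (g ^ K)).filter (HasDigits g K A)

/-- The predicted order of magnitude of the mean value of the `k`-th power: `T / K` for `T ≤ K` and `(T / K) ^ k` for `T ≥ K`. -/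
noncomputable def order (k T K : ℕ) : ℝ := min 1 ((T : ℝ) / K) * max 1 ((T : ℝ) / K) ^ k

lemma almostPrimesIn_eq (y r x T : ℕ) : almostPrimesIn y r x T = roughIn y r x T := by
  classical
  unfold almostPrimesIn roughIn
  symm
  apply card_bij (fun h _ => x + h)
  · intro h hh
    have h1 := mem_filter.1 hh
    have h2 := mem_Icc.1 h1.1
    exact mem_filter.2 ⟨mem_Ioc.2 ⟨by omega, by omega⟩, h1.2⟩
  · intro h _ h' _ h1
    omega
  · intro n hn
    have h1 := mem_filter.1 hn
    have h2 := mem_Ioc.1 h1.1
    have e : x + (n - x) = n := by omega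
    refine ⟨n - x, mem_filter.2 ⟨mem_Icc.2 ⟨by omega, by omega⟩, ?_⟩, e⟩
    rw [e]
    exact h1.2

lemma pow_small (k : ℕ) : ∀ᶠ K : ℕ in atTop, (K : ℝ) ^ k ≤ 2 ^ (K / 8) := by
  have h1 := tendsto_pow_const_div_const_pow_of_one_lt k (r := (2 : ℝ)) (by norm_num)
  have h2 : Tendsto (fun K : ℕ => K / 8) atTop atTop := Nat.tendsto_div_const_atTop (by norm_num)
  have h3 := (h1.comp h2).eventually (gt_mem_nhds (show (0 : ℝ) < 1 / 16 ^ k by positivity))
  filter_upwards [h3, eventually_ge_atTop 8] with K hK hK8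
  simp only [Function.comp] at hK
  have hm : K ≤ 16 * (K / 8) := by omega
  have hK' : (K : ℝ) ≤ 16 * ((K / 8 : ℕ) : ℝ) := by exact_mod_cast hm
  rw [div_lt_div_iff₀ (by positivity) (by positivity), one_mul] at hK
  calc (K : ℝ) ^ k ≤ (16 * ((K / 8 : ℕ) : ℝ)) ^ k := by gcongr
    _ = ((K / 8 : ℕ) : ℝ) ^ k * 16 ^ k := by rw [mul_pow]; ring
    _ ≤ _ := hK.le

lemma prime_almost {g K r x p : ℕ} (hg : 2 ≤ g) (hr : 4 ≤ r) (hK : 8 ≤ K) (hx : g ^ (K / 3) ≤ x) (hp : p.Prime) (hxp : x < p) :
    AlmostPrime (g ^ K) r p := by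
  refine ⟨fun q hq hqp => ?_, ?_⟩
  · have e : q = p := (Nat.prime_dvd_prime_iff_eq hq hp).1 hqp
    rw [e]
    calc g ^ K ≤ g ^ (K / 3 * 4) := Nat.pow_le_pow_right (by omega) (by omega)
      _ = (g ^ (K / 3)) ^ 4 := pow_mul _ _ _
      _ ≤ x ^ 4 := Nat.pow_le_pow_left hx 4
      _ < p ^ 4 := Nat.pow_lt_pow_left hxp (by norm_num)
      _ ≤ p ^ r := Nat.pow_le_pow_right hp.pos hr
  · rw [Nat.primeFactorsList_prime hp]
    simp only [List.length_cons, List.length_nil]
    omega

/-- **All moments in short intervals at integers with restricted digits.** -/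
theorem result (k : ℕ) (hk : 1 ≤ k) (E : ℕ) :
    ∃ c : ℝ, 0 < c ∧ ∃ r₀ : ℕ, 2 ≤ r₀ ∧ ∀ r : ℕ, r₀ ≤ r → ∀ g : ℕ, 2 ≤ g → ∃ κ C : ℝ, 0 < κ ∧ 0 < C ∧
      ∀ᶠ K : ℕ in atTop, ∀ N T : ℕ, N ≤ g ^ (E * K) → 1 ≤ T → T ≤ g ^ (E * K) → ∀ A : ℕ → Finset ℕ, Rich c g K A →
        -- the primes
        ∑ t ∈ digitSet g K A, (primesIn (N + t) T : ℝ) ^ k ≤ C * order k T K * choices K A ∧
        -- the almost primes
        ∑ t ∈ digitSet g K A, (almostPrimesIn (g ^ K) r (N + t) T : ℝ) ^ k ≤ C * order k T K * choices K A ∧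
        (g ≤ T → κ * order k T K * choices K A ≤ ∑ t ∈ digitSet g K A, (almostPrimesIn (g ^ K) r (N + t) T : ℝ) ^ k) := by
  classical
  obtain ⟨c1, hc1, r1, hr1, H1⟩ := roughMomentUpper k hk E
  obtain ⟨c2, hc2, r2, hr2, H2⟩ := roughMomentLower k E
  refine ⟨min (min c1 c2) (1 / 8), by positivity, max (max r1 r2) 4, by omega, fun r hr g hg => ?_⟩
  obtain ⟨C, hC, H1⟩ := H1 r (by omega) g hg
  obtain ⟨κ, hκ, H2⟩ := H2 r (by omega) g hg
  refine ⟨κ, C + 1, hκ, by linarith, ?_⟩
  filter_upwards [H1, H2, pow_small k, small_part 1 one_pos g hg, eventually_ge_atTop 12] with K K1 K2 KP KS hK12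
  intro N T hN hT1 hT A hA
  have hrich : ∀ c' : ℝ, min (min c1 c2) (1 / 8) ≤ c' → Rich c' g K A := fun c' hc' => ⟨hA.1, hA.2.trans (by gcongr)⟩
  have hcs : (0 : ℝ) ≤ choices K A := Nat.cast_nonneg _
  have hKr : (0 : ℝ) < K := by exact_mod_cast (by omega : 0 < K)
  have hTr : (0 : ℝ) < T := by exact_mod_cast (by omega : 0 < T)
  have hg1 : (1 : ℝ) ≤ g := by exact_mod_cast (by omega : 1 ≤ g)
  have hO : 0 ≤ order k T K := by unfold order; positivity
  have e : digitSet g K A = Pool.Agent.Q48.RD.digitSet g K A := rfl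
  have h1 := K1 N T hN hT1 hT A (hrich c1 ((min_le_left _ _).trans (min_le_left _ _)))
  simp only [almostPrimesIn_eq]
  rw [e]
  refine ⟨?_, ?_, fun hgT => K2 N T hN hgT hT A (hrich c2 ((min_le_left _ _).trans (min_le_right _ _)))⟩
  · -- the small `t` contribute very little
    have hsmall : (g : ℝ) ^ (K / 3) * (T : ℝ) ^ k ≤ order k T K * choices K A := by
      have hS := KS A (hrich (1 / 8) (min_le_right _ _))
      rw [one_mul] at hS
      have h2 : (K : ℝ) ^ k * (g : ℝ) ^ (K / 3) ≤ choices K A := by
        calc (K : ℝ) ^ k * (g : ℝ) ^ (K / 3) ≤ 2 ^ (K / 8) * (g : ℝ) ^ (K / 3) := by gcongr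
          _ ≤ (g : ℝ) ^ (K / 8) * (g : ℝ) ^ (K / 3) := by
              gcongr
              exact_mod_cast hg
          _ = (g : ℝ) ^ (K / 8 + K / 3) := (pow_add _ _ _).symm
          _ ≤ (g : ℝ) ^ (K / 2) := pow_le_pow_right₀ hg1 (by omega)
          _ ≤ _ := hS
      have h3 := (min_max_one (x := (T : ℝ) / K) (by positivity) k hk).2
      calc (g : ℝ) ^ (K / 3) * (T : ℝ) ^ k = ((T : ℝ) / K) ^ k * ((K : ℝ) ^ k * (g : ℝ) ^ (K / 3)) := by
            rw [div_pow]; field_simp
        _ ≤ order k T K * choices K A := by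
            unfold order
            gcongr
    have hsplit : ∀ t ∈ Pool.Agent.Q48.RD.digitSet g K A, (primesIn (N + t) T : ℝ) ^ k ≤
        (if t < g ^ (K / 3) then (T : ℝ) ^ k else 0) + (roughIn (g ^ K) r (N + t) T : ℝ) ^ k := by
      intro t _
      split_ifs with ht
      · have h2 : primesIn (N + t) T ≤ T := by
          unfold primesIn
          refine (card_filter_le _ _).trans ?_
          rw [Nat.card_Ioc]
          omega
        have h3 : (primesIn (N + t) T : ℝ) ^ k ≤ (T : ℝ) ^ k := by
          gcongr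
        have h4 : (0 : ℝ) ≤ (roughIn (g ^ K) r (N + t) T : ℝ) ^ k := by positivity
        linarith
      · rw [zero_add]
        have h2 : primesIn (N + t) T ≤ roughIn (g ^ K) r (N + t) T := by
          rw [← almostPrimesIn_eq]
          unfold primesIn almostPrimesIn
          apply card_le_card
          intro p hp
          have h3 := mem_filter.1 hp
          exact mem_filter.2 ⟨h3.1, prime_almost hg (by omega) (by omega) (by omega) h3.2 (mem_Ioc.1 h3.1).1⟩
        gcongr
    refine (sum_le_sum hsplit).trans ?_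
    rw [sum_add_distrib]
    have h5 : ∑ t ∈ Pool.Agent.Q48.RD.digitSet g K A, (if t < g ^ (K / 3) then (T : ℝ) ^ k else 0) ≤ (g : ℝ) ^ (K / 3) * (T : ℝ) ^ k := by
      rw [← sum_filter, sum_const, nsmul_eq_mul]
      apply mul_le_mul_of_nonneg_right _ (by positivity)
      have h6 : (filter (fun t => t < g ^ (K / 3)) (Pool.Agent.Q48.RD.digitSet g K A)).card ≤ (range (g ^ (K / 3))).card := by
        apply card_le_card
        intro t ht
        exact mem_range.2 (mem_filter.1 ht).2
      rw [card_range] at h6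
      exact_mod_cast h6
    calc _ ≤ order k T K * choices K A + C * order k T K * choices K A := add_le_add (h5.trans hsmall) h1
      _ = _ := by ring
  · refine h1.trans ?_
    have : C * (min 1 ((T : ℝ) / K) * max 1 ((T : ℝ) / K) ^ k) * choices K A = C * order k T K * choices K A := rfl
    rw [this]
    gcongr
    linarith

end Pool.Agent.Results.MP_e87c7d_nt.MomentsInShortIntervals
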