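import Pool.Agent.Q25.GReg3

/-!
# The local structure of the Chen tuples of EVERY admissible pattern, uniformly in the shifts

Let `{0} ∪ H` be an admissible set of `r + 1` integers of size at most `X` and let `h₀ ∈ H`. Let `Chen` be the set of the
primes `p` such that `p + h₀` is a product of at most two primes `> X ^ (1/9)` and all `p + h`, `h ∈ H`, are products of at
most `t` primes, `p` and these primes being larger than `X ^ (1/t)`; `t` depends on `r` only. Let `V` be the product of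
`1 - ν(q) / q` over the primes `q ≤ X`, where `ν(q)` is the number of the residue classes modulo `q` of `{0} ∪ H`. All
windows `(u, u + Y]` in `[0, X]` with `θ X ≤ Y ≤ u` contain `w ≥ κ Y V` elements of `Chen`, and

* every set `S` of elements of `Chen` in the window lies, with at most `δ w` exceptions, in progressions of `k` elements
  of `S` with a difference `≤ log ^ D X`;
* all elements of every subset `A` of `Chen`, up to `δ w` exceptions, are regular points of `A`: ALL intervals around such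
  a `p` with a length between `1 / (c V)` and `Y` contain the right order of elements of `A`, and, with the exception of
  at most `R` dyadic scales `2 ^ j` between `1 / V` and `Y`, `A` has a constant density, up to `η`, on both sides of `p`
  up to the distance `2 ^ j`.
-/

set_option autoImplicit false

namespace Pool.Agent.Results.MP_e87c7d_nt.RegularChenTuples

open Finset

/-- `ν(q)`: the number of the residue classes modulo `q` of `0` and of the elements of `H` -/
def ν (H : Finset ℤ) (q : ℕ) : ℕ := ((insert 0 H).image (fun h : ℤ => h % q)).card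

/-- `H` consists of `r` nonzero integers of size at most `X`, and `{0} ∪ H` is admissible. -/
structure Admissible (r X : ℕ) (H : Finset ℤ) : Prop where
  card : H.card = r
  size : ∀ h ∈ H, h ≠ 0 ∧ |h| ≤ X
  loc : ∀ q : ℕ, q.Prime → ν H q < q

/-- The density: the product of `1 - ν(q) / q` over the primes `q ≤ X`. -/
noncomputable def V (H : Finset ℤ) (X : ℕ) : ℝ :=
  ∏ q ∈ (Icc 1 X).filter Nat.Prime, (1 - (ν H q : ℝ) / q)

/-- `m ≠ 0` is up to the sign a product of at most `t` primes, all of them larger than `y`. -/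
def Rough (t : ℕ) (y : ℝ) (m : ℤ) : Prop :=
  m ≠ 0 ∧ m.natAbs.primeFactorsList.length ≤ t ∧ ∀ q : ℕ, q.Prime → (q : ℤ) ∣ m → y < q

/-- The primes `p > X ^ (1/t)` such that `p + h₀` is (up to the sign) a product of at most two primes `> X ^ (1/9)` and
all `p + h`, `h ∈ H`, are products of at most `t` primes `> X ^ (1/t)`. -/
def Chen (t X : ℕ) (H : Finset ℤ) (h₀ : ℤ) : Set ℕ :=
  {p | p.Prime ∧ (X : ℝ) ^ (1 / (t : ℝ)) < p ∧ Rough 2 ((X : ℝ) ^ (1 / 9 : ℝ)) (p + h₀) ∧
    ∀ h ∈ H, Rough t ((X : ℝ) ^ (1 / (t : ℝ))) (p + h)}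

/-! ### progressions -/

/-- `m` is a term of a progression of `k` elements of `S` with a difference in `[1, D]` -/
def InAP (k : ℕ) (D : ℝ) (S : Finset ℕ) (m : ℕ) : Prop :=
  ∃ a d : ℕ, 1 ≤ d ∧ (d : ℝ) ≤ D ∧ (∀ j < k, a + j * d ∈ S) ∧ ∃ j < k, m = a + j * d

open Classical in
/-- the number of the elements of `S` which do not lie in such progressions -/
noncomputable def isolated (k : ℕ) (D : ℝ) (S : Finset ℕ) : ℕ := (S.filter (fun m => ¬ InAP k D S m)).card

/-! ### regular points -/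

open Classical in
/-- the number of the elements of `A` in `(u, v]` -/
noncomputable def N (A : Set ℕ) (u v : ℕ) : ℕ := ((Ioc u v).filter (fun m => m ∈ A)).card

/-- All intervals `(m - s, m + t]` with `s, t ≤ Y` of length at least `L / c` contain the right order of elements
of `A`. -/
def RightOrder (A : Set ℕ) (L c : ℝ) (Y m : ℕ) : Prop :=
  ∀ s t : ℕ, s ≤ Y → t ≤ Y → L ≤ c * (s + t) →
    c * (s + t) / L ≤ N A (m - s) (m + t) ∧ (N A (m - s) (m + t) : ℝ) ≤ (s + t) / (c * L)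

/-- Up to `η`, `A` has a constant density on both sides of `m` up to the distance `2 ^ j`. -/
def ConstantDensity (A : Set ℕ) (L c η : ℝ) (m j : ℕ) : Prop :=
  ∃ lam : ℝ, c ≤ lam ∧ lam ≤ 1 / c ∧ ∀ s t : ℕ, s ≤ 2 ^ j → t ≤ 2 ^ j →
    |(N A (m - s) (m + t) : ℝ) - lam * (s + t) / L| ≤ η * 2 ^ j / L

open Classical in
/-- the number of the scales `L ≤ 2 ^ j ≤ Y` without this property -/
noncomputable def badScales (A : Set ℕ) (L c η : ℝ) (Y m : ℕ) : ℕ :=
  ((range (Nat.log 2 Y + 1)).filter (fun j => L ≤ (2 : ℝ) ^ j ∧ ¬ ConstantDensity A L c η m j)).card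

/-- The elements of `A` that are not regular points of `A`. -/
def Irregular (A : Set ℕ) (L c η : ℝ) (R Y : ℕ) : Set ℕ :=
  {m | m ∈ A ∧ ¬ (RightOrder A L c Y m ∧ badScales A L c η Y m ≤ R)}

lemma Irregular_eq (A : Set ℕ) (L c η : ℝ) (R Y : ℕ) :
    Irregular A L c η R Y = Pool.Agent.Y879.GL.Irr A L c η R Y := by
  have hN : N = Pool.Agent.TH977.PW.N := by
    funext A u v
    unfold N Pool.Agent.TH977.PW.N
    rfl
  unfold Irregular Pool.Agent.Y879.GL.Irr badScales Pool.Agent.Y879.GL.bS RightOrder Pool.Agent.Y879.GL.RO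
    ConstantDensity Pool.Agent.Y879.GL.CD
  rw [hN]

/-- For every `r ≥ 1` there are `t` and `κ > 0` such that for all `k ≥ 1`, `θ > 0` and `δ > 0` there are `D` and `c > 0`,
and for every `η > 0` there are `R` and `X₀`, such that the following holds for ALL `X ≥ X₀`, ALL admissible sets
`{0} ∪ H` with `r` nonzero integers of size at most `X`, all `h₀ ∈ H` and all windows `(u, u + Y]` with `θ X ≤ Y ≤ u`,
`u + Y ≤ X`, where `w` is the number of the elements of `Chen` in the window.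

(0) `w ≥ κ Y V`, and `V ≥ κ / log ^ (r + 1) X`.
(1) Every set `S` of elements of `Chen` in the window has at most `δ w` elements which do not lie in progressions of `k`
elements of `S` with a difference `≤ log ^ D X`.
(2) Every subset `A` of `Chen` has in the window at most `δ w` elements which are not regular points of `A`. -/
theorem result (r : ℕ) (hr : 1 ≤ r) : ∃ t : ℕ, 1 ≤ t ∧ ∃ κ : ℝ, 0 < κ ∧ ∀ k : ℕ, 1 ≤ k → ∀ θ δ : ℝ, 0 < θ → 0 < δ →
    ∃ D : ℕ, ∃ c : ℝ, 0 < c ∧ ∀ η : ℝ, 0 < η → ∃ R X₀ : ℕ, ∀ X : ℕ, X₀ ≤ X → ∀ H : Finset ℤ, Admissible r X H →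
    ∀ h₀ ∈ H, ∀ u Y : ℕ, θ * X ≤ Y → Y ≤ u → u + Y ≤ X →
      (κ * (Y * V H X) ≤ N (Chen t X H h₀) u (u + Y) ∧ κ / Real.log X ^ (r + 1) ≤ V H X) ∧
      (∀ S : Finset ℕ, S ⊆ Ioc u (u + Y) → (∀ p ∈ S, p ∈ Chen t X H h₀) →
        (isolated k (Real.log X ^ D) S : ℝ) ≤ δ * N (Chen t X H h₀) u (u + Y)) ∧
      (∀ A : Set ℕ, A ⊆ Chen t X H h₀ →
        (N (Irregular A (1 / V H X) c η R Y) u (u + Y) : ℝ) ≤ δ * N (Chen t X H h₀) u (u + Y)) := by
  classical
  obtain ⟨t, ht, κ, hκ, h1, h2⟩ := Pool.Agent.Q25.GReg.chenT r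
  obtain ⟨r0, hr0, h3⟩ := Pool.Agent.Q25.GReg.regT r hr
  refine ⟨t, ht, κ, hκ, fun k hk θ δ hθ hδ => ?_⟩
  obtain ⟨n1, h1⟩ := h1 θ hθ
  obtain ⟨D, n2, h2⟩ := h2 k hk θ δ hθ hδ
  obtain ⟨c, hc, h4⟩ := h3 (max t r0) (le_max_right _ _) (δ * κ) (by positivity)
  refine ⟨D, c, hc, fun η hη => ?_⟩
  obtain ⟨R, n3, h5⟩ := h4 η hη
  have g1 : ∀ᶠ n : ℕ in Filter.atTop, (1 / θ : ℝ) ≤ (n : ℝ) ^ (1 / 2 : ℝ) :=
    ((tendsto_rpow_atTop (show (0 : ℝ) < 1 / 2 by norm_num)).comp tendsto_natCast_atTop_atTop).eventually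
      (Filter.eventually_ge_atTop _)
  obtain ⟨n4, g1⟩ := Filter.eventually_atTop.1 g1
  refine ⟨R, max (max n1 n2) (max (max n3 n4) 2), fun X hX H hH h₀ hh₀ u Y hY hYu huY => ?_⟩
  have hn1 : n1 ≤ X := ((le_max_left _ _).trans (le_max_left _ _)).trans hX
  have hn2 : n2 ≤ X := ((le_max_right _ _).trans (le_max_left _ _)).trans hX
  have hn3 : n3 ≤ X := (((le_max_left _ _).trans (le_max_left _ _)).trans (le_max_right _ _)).trans hX
  have hn4 : n4 ≤ X := (((le_max_right _ _).trans (le_max_left _ _)).trans (le_max_right _ _)).trans hX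
  have hn5 : 2 ≤ X := ((le_max_right _ _).trans (le_max_right _ _)).trans hX
  have hnr : (0 : ℝ) < X := by exact_mod_cast (by omega : 0 < X)
  have hnr1 : (1 : ℝ) ≤ X := by exact_mod_cast (by omega : 1 ≤ X)
  have ht0 : (0 : ℝ) < t := by exact_mod_cast ht
  obtain ⟨hc1, hs1, hl1⟩ := hH
  have hl2 : ∀ q : ℕ, q.Prime → Pool.Agent.Y840.CT.rho H q < q := hl1
  have hVeq : V H X = Pool.Agent.Y840.CT.Vp H X := rfl
  have hNeq : N (Chen t X H h₀) u (u + Y) =
      ((Ioc u (u + Y)).filter (fun p => Pool.Agent.Q25.GReg.CP t X H h₀ p)).card := by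
    unfold N
    congr 1
  have hYl : (X : ℝ) ^ (1 / 2 : ℝ) ≤ Y := by
    have g2 := g1 X hn4
    rw [div_le_iff₀ hθ] at g2
    have g3 : (X : ℝ) ^ (1 / 2 : ℝ) * (X : ℝ) ^ (1 / 2 : ℝ) = X := by
      rw [← Real.rpow_add hnr]
      norm_num
    have g4 : (0 : ℝ) < (X : ℝ) ^ (1 / 2 : ℝ) := by positivity
    calc (X : ℝ) ^ (1 / 2 : ℝ) ≤ (X : ℝ) ^ (1 / 2 : ℝ) * ((X : ℝ) ^ (1 / 2 : ℝ) * θ) := by nlinarith
      _ = θ * X := by rw [← mul_assoc, g3]; ring
      _ ≤ Y := hY
  obtain ⟨w1, w2⟩ := h1 X hn1 H hc1.le hs1 hl2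
  have w3 := w2 h₀ hh₀ u Y huY hY
  rw [← hNeq, ← hVeq] at w3
  refine ⟨⟨w3, w1⟩, fun S hS hSp => ?_, fun A hA => ?_⟩
  · have h6 := h2 X hn2 H hc1.le hs1 hl2 h₀ hh₀ u Y huY hY S (by
      intro p hp
      rw [mem_filter]
      exact ⟨hS hp, hSp p hp⟩)
    rw [← hNeq] at h6
    exact h6
  · have h6 := h5 X hn3 H hc1 hs1 hl2 u Y hYl hYu huY A (by
      intro m hm p hp hpX h hh hd
      obtain ⟨m1, m2, m3, m4⟩ := hA hm
      have hpt : (p : ℝ) ≤ (X : ℝ) ^ (1 / (t : ℝ)) := by
        refine hpX.trans ?_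
        apply Real.rpow_le_rpow_of_exponent_le hnr1
        apply one_div_le_one_div_of_le ht0
        exact_mod_cast le_max_left t r0
      rw [mem_insert] at hh
      rcases hh with rfl | hh
      · rw [add_zero] at hd
        have hd' : p ∣ m := by exact_mod_cast hd
        have := (Nat.prime_dvd_prime_iff_eq hp m1).1 hd'
        rw [this] at hpt
        linarith
      · have := (m4 h hh).2.2 p hp hd
        linarith)
    rw [← hVeq, ← Irregular_eq] at h6
    have hN0 : ((Pool.Agent.TH977.PW.N (Irregular A (1 / V H X) c η R Y) u (u + Y) : ℕ) : ℝ) =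
        (N (Irregular A (1 / V H X) c η R Y) u (u + Y) : ℕ) := rfl
    rw [hN0] at h6
    calc _ ≤ δ * κ * (Y * V H X) := h6
      _ = δ * (κ * (Y * V H X)) := by ring
      _ ≤ δ * N (Chen t X H h₀) u (u + Y) := by gcongr

end Pool.Agent.Results.MP_e87c7d_nt.RegularChenTuples
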