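import Pool.Agent.Y816.PD.UniJ

/-!
# Almost prime `k`-tuples with restricted digits in all short intervals

Let `g ≥ 2` be a base and `K` a large number of digits. For every `i < K` let `A i` be an arbitrary non-empty set of digits. Nothing
is assumed about these sets except that they are not too small on average: the number `|A 0| ⋯ |A (K - 1)|` of the choices of `K`
digits is at least `exp (- c K) g ^ K`, where `c > 0` does not depend on the base. (For example, a digit is missing everywhere and
the base is large; or the digits at an arbitrary set of at most `c' K` places are prescribed.)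

Let `H` be an admissible set of `k ≥ 1` shifts (no prime `p` such that `H` contains all residue classes modulo `p`) and `E ≥ 0`.
In EVERY interval `(x, x + y)` with `3 g ^ K ≤ y ≤ M g ^ K` and `x ≤ g ^ (E K)` (so that `y` may be an arbitrarily small power of
`x`) the numbers `m` whose last `K` digits belong to the sets `A i`, such that all `m + h`, `h ∈ H`, are in the interval and have at
most `r` prime factors, all greater than `g ^ (K / r)`, are counted up to a constant factor: their number is at least
`κ |A 0| ⋯ |A (K - 1)| / K ^ k`, the expected order, unless there is an obvious obstruction (no digit `d` in `A 0` such that all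
`d + h` are prime to `g`). The number of the `m` in the interval with these digits for which all `m + h` are PRIMES is at most
`C |A 0| ⋯ |A (K - 1)| / K ^ k`. The constants are independent of the sets `A i` and of the intervals.

Proof. The theorem `uni_int` of the starting library `Pool.Agent.Y816.PD`: a sieve, uniform in the polynomial, for the integers with
restricted digits.
-/

set_option autoImplicit false

namespace Pool.Agent.Results.MP_e87c7d_nt.RestrictedDigits

open Filter Finset

/-- The `i`-th digit of `m` in base `g` (counted from the right, beginning with `0`) belongs to `A i` for all `i < K`. -/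
def HasDigits (g K : ℕ) (A : ℕ → Finset ℕ) (m : ℕ) : Prop := ∀ i < K, m / g ^ i % g ∈ A i

/-- The number of the choices of `K` digits in the sets `A i`. -/
def choices (K : ℕ) (A : ℕ → Finset ℕ) : ℕ := ∏ i ∈ range K, (A i).card

/-- `m` has at most `r` prime factors (counted with multiplicity), and all of them are larger than `y ^ (1 / r)`. -/
def AlmostPrime (y r m : ℕ) : Prop :=
  (∀ p : ℕ, p.Prime → p ∣ m → y < p ^ r) ∧ m.primeFactorsList.length ≤ r

/-- The set `H` of shifts is admissible. -/
def Admissible (H : Finset ℕ) : Prop := ∀ p : ℕ, p.Prime → ∃ m : ℕ, ∀ h ∈ H, ¬ p ∣ m + h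

open Classical in
/-- The number of the `m` in the set `T` with digits in the `A i`, which have the property `P`. -/
noncomputable def count (T : Finset ℕ) (g K : ℕ) (A : ℕ → Finset ℕ) (P : ℕ → Prop) : ℕ :=
  (T.filter fun m => HasDigits g K A m ∧ P m).card

lemma IC_le_count {g K u v : ℕ} {A : ℕ → Finset ℕ} {S : Set ℕ} {P : ℕ → Prop} (h : ∀ n, n ∈ S → P n) :
    Pool.Agent.Y816.PD.IC g K A u v S ≤ count (Ioo u v) g K A P := by
  classical
  unfold Pool.Agent.Y816.PD.IC count
  apply card_le_card
  intro n hn
  have h1 := mem_filter.1 hn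
  exact mem_filter.2 ⟨h1.1, h1.2.1, h n h1.2.2⟩

lemma count_le_IC {g K u v : ℕ} {A : ℕ → Finset ℕ} {S : Set ℕ} {P : ℕ → Prop} (h : ∀ n, P n → n ∈ S) :
    count (Ioo u v) g K A P ≤ Pool.Agent.Y816.PD.IC g K A u v S := by
  classical
  unfold Pool.Agent.Y816.PD.IC count
  apply card_le_card
  intro n hn
  have h1 := mem_filter.1 hn
  exact mem_filter.2 ⟨h1.1, h1.2.1, h n h1.2.2⟩

open Pool.Agent.Y816.PD in
lemma choices_eq (K : ℕ) (A : ℕ → Finset ℕ) : (choices K A : ℝ) = NA K A := by
  unfold choices NA
  push_cast
  rfl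

/-- **Almost prime `k`-tuples with restricted digits in all short intervals.** -/
theorem result (H : Finset ℕ) (hH : Admissible H) (hk : H.Nonempty) (E : ℕ) :
    ∃ c : ℝ, 0 < c ∧ ∃ r₀ : ℕ, 2 ≤ r₀ ∧ ∀ r : ℕ, r₀ ≤ r → ∀ g : ℕ, 2 ≤ g → ∀ M : ℕ, ∃ κ C : ℝ, 0 < κ ∧ 0 < C ∧
      ∀ᶠ K : ℕ in atTop, ∀ x y : ℕ, 3 * g ^ K ≤ y → y ≤ M * g ^ K → x ≤ g ^ (E * K) →
        ∀ A : ℕ → Finset ℕ, (∀ i < K, A i ⊆ range g) → (g : ℝ) ^ K ≤ Real.exp (c * K) * choices K A →
          ((∃ d ∈ A 0, ∀ h ∈ H, (d + h).Coprime g) →
            κ * choices K A / (K : ℝ) ^ H.card ≤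
              count (Ioo x (x + y)) g K A fun m => ∀ h ∈ H, m + h < x + y ∧ AlmostPrime (g ^ K) r (m + h)) ∧
          (count (Ioo x (x + y)) g K A (fun m => ∀ h ∈ H, (m + h).Prime) : ℝ) ≤
            C * choices K A / (K : ℝ) ^ H.card := by
  classical
  obtain ⟨c, hc, r0, hr0, h⟩ := Pool.Agent.Y816.PD.uni_int H hH H.card rfl (card_pos.2 hk) E
  refine ⟨c, hc, r0, hr0, fun r hr g hg M => ?_⟩
  obtain ⟨κ, C, hκ, hC, h1⟩ := h r hr g hg M
  refine ⟨κ, C, hκ, hC, ?_⟩
  filter_upwards [h1] with K hK
  intro x y hy1 hy2 hx A hA hprod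
  obtain ⟨hlow, hup⟩ := hK x y hy1 hy2 hx A hA (by rw [← choices_eq]; exact hprod)
  rw [← choices_eq] at hlow hup
  constructor
  · intro hd
    refine (hlow hd).trans (Nat.cast_le.2 ?_)
    exact IC_le_count fun n hn h hh => ⟨(hn h hh).1, (hn h hh).2.1, (hn h hh).2.2⟩
  · refine le_trans (Nat.cast_le.2 ?_) hup
    exact count_le_IC fun n hn => hn

end Pool.Agent.Results.MP_e87c7d_nt.RestrictedDigits
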